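import Mathlib

/-! Counting choices of sets with a small union. -/

set_option autoImplicit false

open Finset

namespace Pool.Agent.Q93.CV

/-- the inequality of the means for a product over a finite set -/
lemma prod_le_pow {ι : Type} (s : Finset ι) (z : ι → ℝ) (hz : ∀ i ∈ s, 0 ≤ z i) (hs : 0 < s.card)
    {t : ℝ} (ht : ∑ i ∈ s, z i ≤ t * s.card) : ∏ i ∈ s, z i ≤ t ^ s.card := by
  have hs0 : (0 : ℝ) < s.card := by exact_mod_cast hs
  have h := Real.geom_mean_le_arith_mean_weighted s (fun _ => 1 / (s.card : ℝ)) z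
    (fun _ _ => by positivity) (by rw [sum_const, nsmul_eq_mul]; field_simp) hz
  have h1 : ∑ i ∈ s, 1 / (s.card : ℝ) * z i ≤ t := by
    rw [← mul_sum, one_div, inv_mul_le_iff₀ hs0, mul_comm]
    exact ht
  have h2 : ∏ i ∈ s, z i = (∏ i ∈ s, z i ^ (1 / (s.card : ℝ))) ^ s.card := by
    rw [← prod_pow]
    refine prod_congr rfl fun i hi => ?_
    rw [← Real.rpow_natCast, ← Real.rpow_mul (hz i hi)]
    rw [one_div, inv_mul_cancel₀ hs0.ne', Real.rpow_one]
  rw [h2]
  exact pow_le_pow_left₀ (prod_nonneg fun i hi => Real.rpow_nonneg (hz i hi) _) (h.trans h1) _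

/-- the number of the small subsets -/
lemma card_small {ι : Type} [Fintype ι] [DecidableEq ι] (q : ℕ) :
    ((univ : Finset (Finset ι)).filter (fun Q => Q.card ≤ q)).card ≤ (Fintype.card ι + 1) ^ q := by
  have h1 : (univ : Finset (Finset ι)).filter (fun Q => Q.card ≤ q) ⊆
      (univ : Finset (Fin q → Option ι)).image (fun f => univ.filter (fun i => ∃ j, f j = some i)) := by
    intro Q hQ
    rw [mem_filter] at hQ
    rw [mem_image]
    refine ⟨fun j => Q.toList[(j : ℕ)]?, mem_univ _, ?_⟩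
    ext i
    simp only [mem_filter, mem_univ, true_and]
    constructor
    · rintro ⟨j, hj⟩
      have := List.mem_of_getElem? hj
      rwa [Finset.mem_toList] at this
    · intro hi
      rw [← Finset.mem_toList, List.mem_iff_getElem] at hi
      obtain ⟨n, hn, he⟩ := hi
      have hn' : n < q := by
        rw [Finset.length_toList] at hn
        exact hn.trans_le hQ.2
      exact ⟨⟨n, hn'⟩, by simp only; rw [List.getElem?_eq_getElem hn, he]⟩
  refine (card_le_card h1).trans (card_image_le.trans ?_)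
  rw [card_univ, Fintype.card_fun, Fintype.card_option, Fintype.card_fin]

variable {ι V : Type} [Fintype ι] [DecidableEq ι] [DecidableEq V] {κ : ι → Type}
  [∀ i, Fintype (κ i)] [∀ i, DecidableEq (κ i)]

/-- the union of the chosen sets with indices in `Q` -/
def un (A : ∀ i, κ i → Finset V) (a : ∀ i, κ i) (Q : Finset ι) : Finset V :=
  Q.biUnion fun i => A i (a i)

/-- the sets of the family `i` which have at least `w / 2` elements in `E` -/
noncomputable def RE (A : ∀ i, κ i → Finset V) (w : ℝ) (E : Finset V) (i : ι) : Finset (κ i) :=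
  univ.filter fun r => w / 2 ≤ ((A i r ∩ E).card : ℝ)

omit [Fintype ι] [∀ i, Fintype (κ i)] [∀ i, DecidableEq (κ i)] in
lemma un_congr (A : ∀ i, κ i → Finset V) {a b : ∀ i, κ i} {Q : Finset ι}
    (h : ∀ i ∈ Q, a i = b i) : un A a Q = un A b Q := by
  unfold un
  ext x
  simp only [mem_biUnion]
  constructor
  · rintro ⟨i, hi, hx⟩; exact ⟨i, hi, h i hi ▸ hx⟩
  · rintro ⟨i, hi, hx⟩; exact ⟨i, hi, (h i hi).symm ▸ hx⟩

omit [∀ i, DecidableEq (κ i)] in
/-- the skeleton of a choice -/
lemma exists_skeleton (A : ∀ i, κ i → Finset V) {w : ℝ} (hA : ∀ i r, w ≤ ((A i r).card : ℝ))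
    (a : ∀ i, κ i) : ∃ Q : Finset ι, (Q.card : ℝ) * (w / 2) ≤ (un A a Q).card ∧
      ∀ i, i ∉ Q → a i ∈ RE A w (un A a Q) i := by
  classical
  set F : Finset (Finset ι) := univ.filter fun Q => (Q.card : ℝ) * (w / 2) ≤ (un A a Q).card with hF
  have hne : F.Nonempty := ⟨∅, by rw [hF, mem_filter]; exact ⟨mem_univ _, by simp [un]⟩⟩
  obtain ⟨Q, hQ, hmax⟩ := exists_max_image F Finset.card hne
  rw [hF, mem_filter] at hQ
  refine ⟨Q, hQ.2, fun i hi => ?_⟩
  by_contra hcon
  unfold RE at hcon
  rw [mem_filter, not_and, not_le] at hcon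
  have h1 := hcon (mem_univ _)
  have h2 : insert i Q ∈ F := by
    rw [hF, mem_filter]
    refine ⟨mem_univ _, ?_⟩
    rw [card_insert_of_notMem hi]
    have h3 : un A a (insert i Q) = (A i (a i) \ un A a Q) ∪ un A a Q := by
      unfold un
      rw [biUnion_insert, sdiff_union_self_eq_union]
    rw [h3, card_union_of_disjoint sdiff_disjoint]
    have h4 := card_sdiff_add_card_inter (A i (a i)) (un A a Q)
    have h5 : ((A i (a i) \ un A a Q).card : ℝ) + ((A i (a i) ∩ un A a Q).card : ℝ) =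
        (A i (a i)).card := by exact_mod_cast h4
    have h6 := hA i (a i)
    push_cast
    linarith [hQ.2]
  have h3 := hmax _ h2
  rw [card_insert_of_notMem hi] at h3
  omega

/-- weights of the choices with prescribed members in `Q` -/
lemma split_sum (A : ∀ i, κ i → Finset V) (w : ℝ) (π : ∀ i, κ i → ℝ) (hπ0 : ∀ i r, 0 ≤ π i r)
    (hπ1 : ∀ i, ∑ r, π i r = 1) (X : ℝ) (Q : Finset ι) {G : ℝ}
    (hG : ∀ E : Finset V, (E.card : ℝ) < X →
      ∏ i ∈ Qᶜ, ∑ r ∈ RE A w E i, π i r ≤ G) (hG0 : 0 ≤ G) :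
    ∑ a ∈ univ.filter (fun a : ∀ i, κ i => ((un A a Q).card : ℝ) < X ∧
      ∀ i, i ∉ Q → a i ∈ RE A w (un A a Q) i), ∏ i, π i (a i) ≤ G := by
  classical
  set e := Equiv.piEquivPiSubtypeProd (fun i => i ∈ Q) κ with he
  rw [sum_filter, ← e.symm.sum_comp, Fintype.sum_prod_type]
  have hprod : ∀ (b : ∀ i : {i // i ∈ Q}, κ i) (c : ∀ i : {i // ¬ i ∈ Q}, κ i),
      ∏ i, π i (e.symm (b, c) i) = (∏ i : {i // i ∈ Q}, π i (b i)) *
        ∏ i : {i // ¬ i ∈ Q}, π i (c i) := by
    intro b c
    rw [← Fintype.prod_subtype_mul_prod_subtype (fun i => i ∈ Q)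
      (fun i => π i (e.symm (b, c) i))]
    congr 1
    · refine prod_congr (by ext x; simp) fun i _ => ?_
      have : e.symm (b, c) i = b i := by
        simp [he, Equiv.piEquivPiSubtypeProd, i.2]
      rw [this]
    · refine prod_congr (by ext x; simp) fun i _ => ?_
      have : e.symm (b, c) i = c i := by
        simp [he, Equiv.piEquivPiSubtypeProd, i.2]
      rw [this]
  have hone : ∑ b : (∀ i : {i // i ∈ Q}, κ i), ∏ i : {i // i ∈ Q}, π i (b i) = 1 := by
    have := prod_univ_sum (κ := fun i : {i // i ∈ Q} => κ i)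
      (fun i : {i // i ∈ Q} => (univ : Finset (κ i))) (fun i r => π i r)
    rw [Fintype.piFinset_univ] at this
    rw [← this]
    exact prod_eq_one fun i _ => hπ1 i
  calc _ ≤ ∑ b : (∀ i : {i // i ∈ Q}, κ i), (∏ i : {i // i ∈ Q}, π i (b i)) * G := by
        refine sum_le_sum fun b _ => ?_
        -- the union depends on `b` only
        by_cases hne : Nonempty (∀ i : {i // ¬ i ∈ Q}, κ i)
        · obtain ⟨c₀⟩ := hne
          set E := un A (e.symm (b, c₀)) Q with hE
          have hEc : ∀ c, un A (e.symm (b, c)) Q = E := by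
            intro c
            refine un_congr A fun i hi => ?_
            simp [he, Equiv.piEquivPiSubtypeProd, hi]
          by_cases hX : (E.card : ℝ) < X
          · have h1 : ∀ c : (∀ i : {i // ¬ i ∈ Q}, κ i),
                (if ((un A (e.symm (b, c)) Q).card : ℝ) < X ∧
                  ∀ i, i ∉ Q → e.symm (b, c) i ∈ RE A w (un A (e.symm (b, c)) Q) i then
                  ∏ i, π i (e.symm (b, c) i) else 0) ≤
                (∏ i : {i // i ∈ Q}, π i (b i)) * (if c ∈ Fintype.piFinset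
                  (fun i : {i // ¬ i ∈ Q} => RE A w E i) then
                    ∏ i : {i // ¬ i ∈ Q}, π i (c i) else 0) := by
              intro c
              rw [hEc c]
              by_cases hc : ∀ i, i ∉ Q → e.symm (b, c) i ∈ RE A w E i
              · rw [if_pos ⟨hX, hc⟩, if_pos, hprod]
                rw [Fintype.mem_piFinset]
                intro i
                have := hc i i.2
                have h2 : e.symm (b, c) i = c i := by
                  simp [he, Equiv.piEquivPiSubtypeProd, i.2]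
                rwa [h2] at this
              · rw [if_neg (fun h => hc h.2)]
                refine mul_nonneg (prod_nonneg fun i _ => hπ0 _ _) ?_
                split_ifs
                · exact prod_nonneg fun i _ => hπ0 _ _
                · exact le_rfl
            refine (sum_le_sum fun c _ => h1 c).trans ?_
            rw [← mul_sum]
            refine mul_le_mul_of_nonneg_left ?_ (prod_nonneg fun i _ => hπ0 _ _)
            rw [← sum_filter]
            have h3 : univ.filter (fun c => c ∈ Fintype.piFinset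
                (fun i : {i // ¬ i ∈ Q} => RE A w E i)) = Fintype.piFinset
                (fun i : {i // ¬ i ∈ Q} => RE A w E i) := by
              ext c; simp
            rw [h3]
            have h4 := prod_univ_sum (κ := fun i : {i // ¬ i ∈ Q} => κ i)
              (fun i : {i // ¬ i ∈ Q} => RE A w E i) (fun i r => π i r)
            rw [← h4]
            have h5 := hG E hX
            rw [prod_subtype Qᶜ (p := fun i => ¬ i ∈ Q) (by simp)
              (fun i => ∑ r ∈ RE A w E i, π i r)] at h5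
            exact h5
          · have h1 : ∀ c : (∀ i : {i // ¬ i ∈ Q}, κ i),
                (if ((un A (e.symm (b, c)) Q).card : ℝ) < X ∧
                  ∀ i, i ∉ Q → e.symm (b, c) i ∈ RE A w (un A (e.symm (b, c)) Q) i then
                  ∏ i, π i (e.symm (b, c) i) else 0) = 0 := by
              intro c
              rw [hEc c, if_neg (fun h => hX h.1)]
            rw [sum_congr rfl fun c _ => h1 c, sum_const_zero]
            exact mul_nonneg (prod_nonneg fun i _ => hπ0 _ _) hG0
        · rw [not_nonempty_iff] at hne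
          rw [univ_eq_empty, sum_empty]
          exact mul_nonneg (prod_nonneg fun i _ => hπ0 _ _) hG0
    _ = G := by rw [← sum_mul, hone, one_mul]

/-- **The weight of the choices with a small union.** -/
theorem weight_bad (A : ∀ i, κ i → Finset V) {w : ℝ} (hw : 0 < w)
    (hA : ∀ i r, w ≤ ((A i r).card : ℝ))
    (π : ∀ i, κ i → ℝ) (hπ0 : ∀ i r, 0 ≤ π i r) (hπ1 : ∀ i, ∑ r, π i r = 1) {ρ : ℝ} (hρ0 : 0 ≤ ρ)
    (hρ : ∀ i r, π i r ≤ ρ) {X Γ : ℝ} (hΓ0 : 0 ≤ Γ)
    (hΓ : ∀ E : Finset V, (E.card : ℝ) < X →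
      ∑ i, ((RE A w E i).card : ℝ) ≤ Γ * Fintype.card ι)
    {q : ℕ} (hq : 2 * X / w ≤ q) (hq2 : 2 * q ≤ Fintype.card ι) (hι : 0 < Fintype.card ι)
    (h1 : 2 * ρ * Γ ≤ 1) :
    ∑ a ∈ univ.filter (fun a : ∀ i, κ i => ((un A a univ).card : ℝ) < X), ∏ i, π i (a i) ≤
      (Fintype.card ι + 1) ^ q * (2 * ρ * Γ) ^ (Fintype.card ι - q) := by
  classical
  have hG0 : 0 ≤ (2 * ρ * Γ) ^ (Fintype.card ι - q) := by positivity
  have hcov : ∑ a ∈ univ.filter (fun a : ∀ i, κ i => ((un A a univ).card : ℝ) < X),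
      ∏ i, π i (a i) ≤ ∑ Q ∈ (univ : Finset (Finset ι)).filter (fun Q => Q.card ≤ q),
        ∑ a ∈ univ.filter (fun a : ∀ i, κ i => ((un A a Q).card : ℝ) < X ∧
          ∀ i, i ∉ Q → a i ∈ RE A w (un A a Q) i), ∏ i, π i (a i) := by
    rw [sum_comm' (t' := univ.filter fun a : ∀ i, κ i => True) (s' := fun a =>
      ((univ : Finset (Finset ι)).filter (fun Q => Q.card ≤ q)).filter (fun Q =>
        ((un A a Q).card : ℝ) < X ∧ ∀ i, i ∉ Q → a i ∈ RE A w (un A a Q) i))
      (by intro Q a; simp only [mem_filter, mem_univ, true_and, and_true])]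
    refine le_trans ?_ (sum_le_sum_of_subset_of_nonneg (s := univ.filter
      (fun a : ∀ i, κ i => ((un A a univ).card : ℝ) < X)) (by
        intro a _; simp) (fun a _ _ => sum_nonneg fun Q _ => prod_nonneg fun i _ => hπ0 _ _))
    refine sum_le_sum fun a ha => ?_
    rw [mem_filter] at ha
    obtain ⟨Q, hQ1, hQ2⟩ := exists_skeleton A hA a
    have hlt : ((un A a Q).card : ℝ) < X := by
      refine lt_of_le_of_lt ?_ ha.2
      exact_mod_cast card_le_card (biUnion_subset_biUnion_of_subset_left _ (subset_univ Q))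
    have hQq : Q.card ≤ q := by
      have h2 : (Q.card : ℝ) ≤ 2 * X / w := by
        rw [le_div_iff₀ hw]; linarith
      exact_mod_cast h2.trans hq
    exact single_le_sum (f := fun _ => ∏ i, π i (a i)) (fun _ _ => prod_nonneg fun i _ => hπ0 _ _)
      (mem_filter.2 ⟨mem_filter.2 ⟨mem_univ Q, hQq⟩, hlt, hQ2⟩)
  refine hcov.trans ?_
  have hQ : ∀ Q ∈ (univ : Finset (Finset ι)).filter (fun Q => Q.card ≤ q),
      ∑ a ∈ univ.filter (fun a : ∀ i, κ i => ((un A a Q).card : ℝ) < X ∧
          ∀ i, i ∉ Q → a i ∈ RE A w (un A a Q) i), ∏ i, π i (a i) ≤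
      (2 * ρ * Γ) ^ (Fintype.card ι - q) := by
    intro Q hQ
    rw [mem_filter] at hQ
    refine split_sum A w π hπ0 hπ1 X Q (fun E hE => ?_) hG0
    have hm : Qᶜ.card = Fintype.card ι - Q.card := card_compl Q
    have hm2 : Fintype.card ι - q ≤ Qᶜ.card := by omega
    have hmpos : 0 < Qᶜ.card := by omega
    have h2 : ∏ i ∈ Qᶜ, ∑ r ∈ RE A w E i, π i r ≤ ∏ i ∈ Qᶜ, (ρ * ((RE A w E i).card : ℝ)) := by
      refine prod_le_prod (fun i _ => sum_nonneg fun r _ => hπ0 _ _) fun i _ => ?_
      calc ∑ r ∈ RE A w E i, π i r ≤ ∑ r ∈ RE A w E i, ρ := sum_le_sum fun r _ => hρ i r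
        _ = _ := by rw [sum_const, nsmul_eq_mul, mul_comm]
    refine h2.trans ?_
    have h3 : ∏ i ∈ Qᶜ, (ρ * ((RE A w E i).card : ℝ)) ≤ (2 * ρ * Γ) ^ Qᶜ.card := by
      refine prod_le_pow _ _ (fun i _ => by positivity) hmpos ?_
      rw [← mul_sum]
      have h4 : ∑ i ∈ Qᶜ, ((RE A w E i).card : ℝ) ≤ Γ * Fintype.card ι :=
        (sum_le_sum_of_subset_of_nonneg (subset_univ _) fun i _ _ => by positivity).trans (hΓ E hE)
      have h5 : (Fintype.card ι : ℝ) ≤ 2 * Qᶜ.card := by
        have : Fintype.card ι ≤ 2 * Qᶜ.card := by omega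
        exact_mod_cast this
      calc ρ * ∑ i ∈ Qᶜ, ((RE A w E i).card : ℝ) ≤ ρ * (Γ * Fintype.card ι) := by gcongr
        _ ≤ ρ * (Γ * (2 * Qᶜ.card)) := by gcongr
        _ = _ := by ring
    exact h3.trans (pow_le_pow_of_le_one (by positivity) h1 hm2)
  calc _ ≤ ∑ _Q ∈ (univ : Finset (Finset ι)).filter (fun Q => Q.card ≤ q),
        (2 * ρ * Γ) ^ (Fintype.card ι - q) := sum_le_sum hQ
    _ = (((univ : Finset (Finset ι)).filter (fun Q => Q.card ≤ q)).card : ℝ) *
        (2 * ρ * Γ) ^ (Fintype.card ι - q) := by rw [sum_const, nsmul_eq_mul]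
    _ ≤ _ := by
        refine mul_le_mul_of_nonneg_right ?_ hG0
        exact_mod_cast card_small (ι := ι) q

end Pool.Agent.Q93.CV
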