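import Pool.Agent.Q93.CV.Abs

/-! Residue classes modulo primes: the number of choices with a small union. -/

set_option autoImplicit false

open Finset

namespace Pool.Agent.Q93.CV

/-- the integers `1, ..., N` in the class `r` modulo `p` -/
def cls (N p : ℕ) (r : ZMod p) : Finset ℕ := (Icc 1 N).filter fun n : ℕ => (n : ZMod p) = r

lemma card_cls (N p : ℕ) (hp : 0 < p) (r : ZMod p) {w : ℝ} (hw : w + 1 ≤ (N : ℝ) / p) :
    w ≤ ((cls N p r).card : ℝ) := by
  haveI : NeZero p := ⟨hp.ne'⟩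
  obtain ⟨r0, hr1, hr2, hr3⟩ : ∃ r0 : ℕ, 1 ≤ r0 ∧ r0 ≤ p ∧ (r0 : ZMod p) = r := by
    by_cases h : r.val = 0
    · refine ⟨p, hp, le_rfl, ?_⟩
      rw [ZMod.natCast_self]
      exact ((ZMod.val_eq_zero r).1 h).symm
    · exact ⟨r.val, by omega, (ZMod.val_lt r).le, ZMod.natCast_zmod_val r⟩
  have h1 : N / p ≤ (cls N p r).card := by
    have h2 : ((range (N / p)).image fun i => r0 + i * p).card = N / p := by
      rw [card_image_of_injective _ (by
        intro i j hij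
        simp only [add_right_inj] at hij
        exact Nat.eq_of_mul_eq_mul_right hp hij), card_range]
    rw [← h2]
    refine card_le_card fun n hn => ?_
    rw [mem_image] at hn
    obtain ⟨i, hi, rfl⟩ := hn
    rw [mem_range] at hi
    unfold cls
    rw [mem_filter, mem_Icc]
    refine ⟨⟨by omega, ?_⟩, by push_cast; rw [ZMod.natCast_self, mul_zero, add_zero, hr3]⟩
    calc r0 + i * p ≤ p + i * p := by omega
      _ = (i + 1) * p := by ring
      _ ≤ (N / p) * p := Nat.mul_le_mul_right _ hi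
      _ ≤ N := Nat.div_mul_le_self N p
  have h2 : (N : ℝ) / p < ((N / p : ℕ) : ℝ) + 1 := by
    have hp' : (0 : ℝ) < p := by exact_mod_cast hp
    rw [div_lt_iff₀ hp']
    have := Nat.lt_div_mul_add (a := N) hp
    have h3 : (N : ℝ) < ((N / p : ℕ) : ℝ) * p + p := by exact_mod_cast this
    linarith
  have h3 : ((N / p : ℕ) : ℝ) ≤ (cls N p r).card := by exact_mod_cast h1
  linarith

section

variable (N : ℕ) (P : Finset ℕ) [∀ i : {p // p ∈ P}, NeZero (i : ℕ)]

/-- the second moment: two elements of `[1, N]` lie in at most one class -/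
lemma sum_RE_le (hP : ∀ p ∈ P, p.Prime) (hN : ∀ p ∈ P, N ≤ p * p) {w : ℝ} (hw : 4 ≤ w)
    (E : Finset ℕ) :
    ∑ i : {p // p ∈ P}, ((RE (fun (i : {p // p ∈ P}) (r : ZMod i) => cls N i r) w E i).card : ℝ) ≤
      8 * (E.card : ℝ) ^ 2 / w ^ 2 := by
  classical
  set A : ∀ i : {p // p ∈ P}, ZMod i → Finset ℕ := fun i r => cls N i r with hA
  set D : Finset (Σ i : {p // p ∈ P}, ZMod i) := univ.sigma fun i => RE A w E i with hD
  have hdisj : ∀ x ∈ D, ∀ y ∈ D, x ≠ y → Disjoint (A x.1 x.2 ∩ E).offDiag (A y.1 y.2 ∩ E).offDiag := by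
    intro x _ y _ hxy
    rw [disjoint_left]
    rintro ⟨u, v⟩ h1 h2
    rw [mem_offDiag] at h1 h2
    simp only at h1 h2
    obtain ⟨hu1, hv1, huv⟩ := h1
    obtain ⟨hu2, hv2, -⟩ := h2
    have hu1 := (mem_inter.1 hu1).1
    have hv1 := (mem_inter.1 hv1).1
    have hu2 := (mem_inter.1 hu2).1
    have hv2 := (mem_inter.1 hv2).1
    simp only [hA, cls, mem_filter, mem_Icc] at hu1 hv1 hu2 hv2
    apply hxy
    obtain ⟨⟨p, hp⟩, r⟩ := x
    obtain ⟨⟨q, hq⟩, s⟩ := y
    simp only at hu1 hv1 hu2 hv2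
    have hpq : p = q := by
      by_contra hne
      have hd1 : (p : ℤ) ∣ (u : ℤ) - v := by
        rw [← ZMod.intCast_zmod_eq_zero_iff_dvd]
        push_cast
        rw [hu1.2, hv1.2, sub_self]
      have hd2 : (q : ℤ) ∣ (u : ℤ) - v := by
        rw [← ZMod.intCast_zmod_eq_zero_iff_dvd]
        push_cast
        rw [hu2.2, hv2.2, sub_self]
      have hco : IsCoprime (p : ℤ) (q : ℤ) := by
        rw [Nat.isCoprime_iff_coprime]
        exact (Nat.coprime_primes (hP p hp) (hP q hq)).2 hne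
      have hd := hco.mul_dvd hd1 hd2
      have hge : (N : ℤ) ≤ p * q := by
        have h1 := hN p hp
        have h2 := hN q hq
        have : N ≤ p * q := by
          rcases le_total p q with h | h
          · exact h1.trans (Nat.mul_le_mul_left _ h)
          · exact h2.trans (Nat.mul_le_mul_right _ h)
        exact_mod_cast this
      have hab := Int.eq_zero_of_abs_lt_dvd hd (by
        rw [abs_lt]
        constructor <;> push_cast at * <;> omega)
      omega
    subst hpq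
    have hrs : r = s := hu1.2.symm.trans hu2.2
    rw [hrs]
  have hcard : ∀ x ∈ D, w ^ 2 / 8 ≤ (((A x.1 x.2 ∩ E).offDiag).card : ℝ) := by
    intro x hx
    rw [hD, mem_sigma] at hx
    have h1 := hx.2
    unfold RE at h1
    rw [mem_filter] at h1
    have h2 := h1.2
    rw [offDiag_card, Nat.cast_sub (Nat.le_mul_self _)]
    push_cast
    obtain ⟨c, hc⟩ : ∃ c : ℝ, c = ((A x.1 x.2 ∩ E).card : ℝ) := ⟨_, rfl⟩
    rw [← hc] at h2 ⊢
    nlinarith
  have h1 : (D.card : ℝ) * (w ^ 2 / 8) ≤ (E.card : ℝ) ^ 2 := by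
    calc (D.card : ℝ) * (w ^ 2 / 8) = ∑ _x ∈ D, w ^ 2 / 8 := by rw [sum_const, nsmul_eq_mul]
      _ ≤ ∑ x ∈ D, (((A x.1 x.2 ∩ E).offDiag).card : ℝ) := sum_le_sum hcard
      _ = ((D.biUnion fun x => (A x.1 x.2 ∩ E).offDiag).card : ℝ) := by
          rw [card_biUnion hdisj]
          push_cast
          rfl
      _ ≤ (E.offDiag.card : ℝ) := by
          exact_mod_cast card_le_card (biUnion_subset.2 fun x _ =>
            offDiag_mono inter_subset_right)
      _ ≤ _ := by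
          rw [offDiag_card, Nat.cast_sub (Nat.le_mul_self _)]
          push_cast
          nlinarith [(Nat.cast_nonneg E.card : (0 : ℝ) ≤ E.card)]
  have h2 : (D.card : ℝ) = ∑ i : {p // p ∈ P}, ((RE A w E i).card : ℝ) := by
    rw [hD, card_sigma]
    push_cast
    rfl
  rw [← h2, le_div_iff₀ (by positivity)]
  linarith

/-- **the weight of the choices of residues with a small union** -/
theorem fin_bound (hP : ∀ p ∈ P, p.Prime) (hN : ∀ p ∈ P, N ≤ p * p) {w : ℝ} (hw : 4 ≤ w)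
    (hw2 : ∀ p ∈ P, w + 1 ≤ (N : ℝ) / p)
    (π : ∀ i : {p // p ∈ P}, ZMod i → ℝ) (hπ0 : ∀ i r, 0 ≤ π i r) (hπ1 : ∀ i, ∑ r, π i r = 1)
    {ρ : ℝ} (hρ0 : 0 ≤ ρ) (hρ : ∀ i r, π i r ≤ ρ) {X Θ : ℝ}
    {q : ℕ} (hq : 2 * X / w ≤ q) (hq2 : 2 * q ≤ P.card) (hP0 : 0 < P.card)
    (hΘ : 16 * ρ * X ^ 2 / (w ^ 2 * P.card) ≤ Θ) (h1 : Θ ≤ 1) :
    ∑ a ∈ univ.filter (fun a : ∀ i : {p // p ∈ P}, ZMod i =>
      ((un (fun (i : {p // p ∈ P}) (r : ZMod i) => cls N i r) a univ).card : ℝ) < X),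
        ∏ i, π i (a i) ≤ (P.card + 1) ^ q * Θ ^ (P.card - q) := by
  have hc : Fintype.card {p // p ∈ P} = P.card := Fintype.card_coe P
  have hP0' : (0 : ℝ) < P.card := by exact_mod_cast hP0
  have h := weight_bad (ι := {p // p ∈ P}) (V := ℕ) (κ := fun i => ZMod i)
    (fun (i : {p // p ∈ P}) (r : ZMod i) => cls N i r) (w := w) (by linarith)
    (fun i r => card_cls N i (hP i i.2).pos r (hw2 i i.2)) π hπ0 hπ1 hρ0 hρ
    (X := X) (Γ := 8 * X ^ 2 / (w ^ 2 * P.card)) (by positivity) (by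
      intro E hE
      refine (sum_RE_le N P hP hN hw E).trans ?_
      rw [hc]
      have e : 8 * X ^ 2 / (w ^ 2 * (P.card : ℝ)) * P.card = 8 * X ^ 2 / w ^ 2 := by
        field_simp
      rw [e]
      have : (E.card : ℝ) ^ 2 ≤ X ^ 2 := pow_le_pow_left₀ (Nat.cast_nonneg _) hE.le 2
      gcongr) (q := q) hq (by rw [hc]; exact hq2) (by rw [hc]; exact hP0) (by
      refine le_trans (le_of_eq ?_) (hΘ.trans h1)
      ring)
  rw [hc] at h
  refine h.trans ?_
  have e : 2 * ρ * (8 * X ^ 2 / (w ^ 2 * (P.card : ℝ))) = 16 * ρ * X ^ 2 / (w ^ 2 * P.card) := by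
    ring
  rw [e]
  refine mul_le_mul_of_nonneg_left ?_ (by positivity)
  exact pow_le_pow_left₀ (by positivity) hΘ _

end

end Pool.Agent.Q93.CV
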