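import Pool.Agent.Q93.CV.Arith

/-! Residue classes modulo primes: the number of choices with a small union, large `N`. -/

set_option autoImplicit false

open Finset Filter

namespace Pool.Agent.Q93.CV

lemma ev_log (C s : ℝ) (hs : 0 < s) : ∀ᶠ N : ℕ in atTop, C * Real.log N ≤ (N : ℝ) ^ s := by
  have h := (isLittleO_log_rpow_atTop hs).bound (c := 1 / (|C| + 1)) (by positivity)
  have h2 := tendsto_natCast_atTop_atTop (R := ℝ) |>.eventually h
  filter_upwards [h2, eventually_ge_atTop 1] with N hN h1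
  have h1' : (1 : ℝ) ≤ N := by exact_mod_cast h1
  have hp : 0 ≤ (N : ℝ) ^ s := by positivity
  have hC : 0 < |C| + 1 := by positivity
  rw [Real.norm_eq_abs, Real.norm_eq_abs, abs_of_nonneg (Real.log_nonneg h1'),
    abs_of_nonneg hp, one_div, inv_mul_eq_div, le_div_iff₀ hC] at hN
  have := le_abs_self C
  nlinarith [Real.log_nonneg h1']

/-- the size of the skeleton -/
lemma ev_q (κ c ε : ℝ) (hκ : 0 < κ) (hc : 0 < c) (hε : 0 < ε) : ∀ᶠ N : ℕ in atTop, ∀ T : ℝ,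
    0 < T → (N : ℝ) ≤ T ^ 2 → 8 * T * (N : ℝ) ^ (-ε) + 1 ≤ κ * (c * T / Real.log N) := by
  filter_upwards [ev_log (16 / (κ * c)) ε hε, ev_log (2 / (κ * c)) (1 / 2) (by norm_num),
    eventually_ge_atTop 3] with N h1 h2 h3 T hT hNT
  have hN3 : (3 : ℝ) ≤ N := by exact_mod_cast h3
  have hN0 : (0 : ℝ) < N := by linarith
  have hL : 0 < Real.log N := Real.log_pos (by linarith)
  have hT2 : (N : ℝ) ^ ((1 : ℝ) / 2) ≤ T := by
    rw [← Real.sqrt_eq_rpow]
    exact Real.sqrt_le_left hT.le |>.2 hNT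
  have e1 : 8 * T * (N : ℝ) ^ (-ε) ≤ κ * (c * T / Real.log N) / 2 := by
    have hNε : 0 < (N : ℝ) ^ ε := by positivity
    rw [Real.rpow_neg hN0.le]
    rw [div_mul_eq_mul_div, div_le_iff₀ (by positivity)] at h1
    have : κ * (c * T / Real.log N) / 2 = κ * c * T / (2 * Real.log N) := by ring
    rw [this, ← div_eq_mul_inv, div_le_div_iff₀ hNε (by positivity)]
    nlinarith
  have e2 : 1 ≤ κ * (c * T / Real.log N) / 2 := by
    rw [div_mul_eq_mul_div, div_le_iff₀ (by positivity)] at h2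
    have : κ * (c * T / Real.log N) / 2 = κ * c * T / (2 * Real.log N) := by ring
    rw [this, le_div_iff₀ (by positivity)]
    have : (N : ℝ) ^ ((1 : ℝ) / 2) * (κ * c) ≤ T * (κ * c) :=
      mul_le_mul_of_nonneg_right hT2 (by positivity)
    linarith
  linarith

/-- the common part -/
lemma core (c η δ κ θ : ℝ) (hc : 0 < c) (hη : 0 < η) (hδ : 0 < δ) (hκ : 0 < κ) (hκ2 : κ ≤ 1 / 2)
    (hθ : 0 ≤ θ) : ∀ᶠ N : ℕ in atTop, ∀ T : ℝ, 0 < T → (N : ℝ) ≤ T ^ 2 → T ≤ (N : ℝ) ^ (1 - δ) →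
    ∀ (P : Finset ℕ) [∀ i : {p // p ∈ P}, NeZero (i : ℕ)], (∀ p ∈ P, p.Prime) →
    (∀ p ∈ P, T ≤ p ∧ (p : ℝ) < 2 * T) → c * T / Real.log N ≤ P.card →
    ∀ (π : ∀ i : {p // p ∈ P}, ZMod i → ℝ), (∀ i r, 0 ≤ π i r) → (∀ i, ∑ r, π i r = 1) →
    ∀ (ρ : ℝ), 0 ≤ ρ → (∀ i r, π i r ≤ ρ) → ∀ X : ℝ, 0 ≤ X → X ≤ (N : ℝ) ^ (1 - η) →
    256 * ρ * X ^ 2 * T / c * Real.log N ≤ (N : ℝ) ^ (2 - θ) →
    ∑ a ∈ univ.filter (fun a : ∀ i : {p // p ∈ P}, ZMod i =>
      ((un (fun (i : {p // p ∈ P}) (r : ZMod i) => cls N i r) a univ).card : ℝ) < X),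
        ∏ i, π i (a i) ≤ ((N : ℝ) ^ ((2 + θ) * κ - θ)) ^ P.card := by
  filter_upwards [ev_q κ c η hκ hc hη, eventually_ge_atTop 3,
    ((tendsto_rpow_atTop hδ).comp tendsto_natCast_atTop_atTop).eventually_ge_atTop (16 : ℝ)]
    with N h1 h3 h4 T hT hNT hTN P _ hP hPT hPc π hπ0 hπ1 ρ hρ0 hρ X hX0 hX hΘ
  have hN3 : (3 : ℝ) ≤ N := by exact_mod_cast h3
  have hN0 : (0 : ℝ) < N := by linarith
  have hL : 0 < Real.log N := Real.log_pos (by linarith)
  have hL1 : 1 ≤ Real.log N := by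
    rw [Real.le_log_iff_exp_le hN0]
    have := Real.exp_one_lt_d9
    linarith
  simp only [Function.comp_apply] at h4
  have hT1 : 1 ≤ T := by nlinarith
  obtain ⟨w, hw⟩ : ∃ w, w = (N : ℝ) / (4 * T) := ⟨_, rfl⟩
  have hw0 : 0 < w := by rw [hw]; positivity
  have hwδ : (N : ℝ) ^ δ / 4 ≤ w := by
    rw [hw, div_le_div_iff₀ (by norm_num) (by positivity)]
    have : (N : ℝ) ^ δ * (N : ℝ) ^ (1 - δ) = N := by
      rw [← Real.rpow_add hN0]; simp
    nlinarith [mul_le_mul_of_nonneg_left hTN (by positivity : (0 : ℝ) ≤ (N : ℝ) ^ δ)]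
  have hw4 : 4 ≤ w := by linarith
  have hP0 : 0 < P.card := by
    have : 0 < c * T / Real.log N := by positivity
    exact_mod_cast this.trans_le hPc
  obtain ⟨q, hq⟩ : ∃ q, q = ⌈8 * T * (N : ℝ) ^ (-η)⌉₊ := ⟨_, rfl⟩
  have hq1 : 8 * T * (N : ℝ) ^ (-η) ≤ q := by rw [hq]; exact Nat.le_ceil _
  have hq2 : (q : ℝ) ≤ 8 * T * (N : ℝ) ^ (-η) + 1 := by
    rw [hq]; exact (Nat.ceil_lt_add_one (by positivity)).le
  have hqP : (q : ℝ) ≤ κ * P.card := by
    refine hq2.trans ((h1 T hT hNT).trans ?_)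
    exact mul_le_mul_of_nonneg_left hPc hκ.le
  have hPN : (P.card : ℝ) + 1 ≤ (N : ℝ) ^ 2 := by
    have h5 : P ⊆ Ico 1 ⌈2 * T⌉₊ := by
      intro p hp
      rw [mem_Ico, Nat.lt_ceil]
      exact ⟨(hP p hp).pos, (hPT p hp).2⟩
    have h6 : (P.card : ℝ) ≤ 2 * T := by
      have h7 := card_le_card h5
      rw [Nat.card_Ico] at h7
      have h8 : (⌈2 * T⌉₊ : ℝ) < 2 * T + 1 := Nat.ceil_lt_add_one (by positivity)
      have h9 : P.card + 1 ≤ ⌈2 * T⌉₊ := by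
        have : 1 ≤ ⌈2 * T⌉₊ := Nat.one_le_ceil_iff.2 (by positivity)
        omega
      have h10 : (P.card : ℝ) + 1 ≤ ⌈2 * T⌉₊ := by exact_mod_cast h9
      linarith
    have h7 : T ≤ N := hTN.trans (by
      calc (N : ℝ) ^ (1 - δ) ≤ (N : ℝ) ^ (1 : ℝ) :=
            Real.rpow_le_rpow_of_exponent_le (by linarith) (by linarith)
        _ = N := Real.rpow_one _)
    nlinarith
  obtain ⟨Θ, hΘe⟩ : ∃ Θ, Θ = (N : ℝ) ^ (-θ) := ⟨_, rfl⟩
  have hΘ1 : Θ ≤ 1 := by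
    rw [hΘe]
    exact Real.rpow_le_one_of_one_le_of_nonpos (by linarith) (by linarith)
  have hΘ0 : 0 < Θ := by rw [hΘe]; positivity
  have hq3 : q ≤ P.card := by
    have : (q : ℝ) ≤ P.card := by
      have : (0 : ℝ) ≤ P.card := Nat.cast_nonneg _
      nlinarith
    exact_mod_cast this
  have h := fin_bound N P hP (by
      intro p hp
      have h5 := (hPT p hp).1
      have h6 : (N : ℝ) ≤ (p : ℝ) * p := by nlinarith
      exact_mod_cast h6) (w := w) hw4 (by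
      intro p hp
      have h5 := hPT p hp
      have hp0 : (0 : ℝ) < p := by linarith
      rw [le_div_iff₀ hp0]
      have : w * (4 * T) = N := by rw [hw]; field_simp
      nlinarith) π hπ0 hπ1 hρ0 hρ (X := X) (Θ := Θ) (q := q) (by
      refine le_trans ?_ hq1
      rw [hw]
      have e : 2 * X / (N / (4 * T)) = 8 * T * (X / N) := by field_simp; ring
      rw [e]
      apply mul_le_mul_of_nonneg_left _ (by positivity)
      rw [div_le_iff₀ hN0]
      refine hX.trans (le_of_eq ?_)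
      rw [← Real.rpow_add_one hN0.ne']
      congr 1; ring) (by
      have : (2 : ℝ) * q ≤ P.card := by
        have : (0 : ℝ) ≤ P.card := Nat.cast_nonneg _
        nlinarith
      exact_mod_cast this) hP0 (by
      have hPc0 : (0 : ℝ) < P.card := by exact_mod_cast hP0
      rw [div_le_iff₀ (by positivity), hΘe, hw]
      have h5 : 256 * ρ * X ^ 2 * T / c * Real.log N ≤ (N : ℝ) ^ 2 * (N : ℝ) ^ (-θ) := by
        rw [← Real.rpow_natCast (N : ℝ) 2, ← Real.rpow_add hN0]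
        push_cast
        exact hΘ
      have h6 : T ≤ P.card * Real.log N / c := by
        rw [le_div_iff₀ hc]
        rw [div_le_iff₀ hL] at hPc
        linarith
      have h7 : (N : ℝ) ^ (-θ) * ((N / (4 * T)) ^ 2 * (P.card : ℝ)) =
          ((N : ℝ) ^ 2 * (N : ℝ) ^ (-θ)) * P.card / (16 * T ^ 2) := by
        field_simp; norm_num
      rw [h7, le_div_iff₀ (by positivity)]
      calc 16 * ρ * X ^ 2 * (16 * T ^ 2) = (256 * ρ * X ^ 2 * T) * T := by ring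
        _ ≤ (256 * ρ * X ^ 2 * T) * (P.card * Real.log N / c) := by gcongr
        _ = (256 * ρ * X ^ 2 * T / c * Real.log N) * P.card := by ring
        _ ≤ _ := by gcongr) hΘ1
  refine h.trans ?_
  have e1 : ((P.card : ℝ) + 1) ^ q ≤ (N : ℝ) ^ (2 * (q : ℝ)) := by
    calc ((P.card : ℝ) + 1) ^ q ≤ ((N : ℝ) ^ 2) ^ q := pow_le_pow_left₀ (by positivity) hPN q
      _ = (N : ℝ) ^ (2 * (q : ℝ)) := by
          rw [← pow_mul, ← Real.rpow_natCast]; push_cast; rfl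
  have e2 : Θ ^ (P.card - q) = (N : ℝ) ^ (-θ * ((P.card : ℝ) - q)) := by
    rw [hΘe, ← Real.rpow_natCast, ← Real.rpow_mul hN0.le, Nat.cast_sub hq3]
  rw [e2]
  refine (mul_le_mul_of_nonneg_right e1 (by positivity)).trans ?_
  rw [← Real.rpow_add hN0, ← Real.rpow_natCast, ← Real.rpow_mul hN0.le]
  refine Real.rpow_le_rpow_of_exponent_le (by linarith) ?_
  nlinarith

/-- **random residues**: the exponent `1 - (1 - h) / 2` -/
theorem prob_bound (K h c η δ : ℝ) (hK : 0 < K) (hh : h ≤ 1) (hc : 0 < c)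
    (hη : 0 < η) (hη1 : η ≤ 1) (hδ : 0 < δ) : ∀ᶠ N : ℕ in atTop, ∀ T : ℝ, 0 < T →
    (N : ℝ) ≤ T ^ 2 → T ≤ (N : ℝ) ^ (1 - δ) →
    ∀ (P : Finset ℕ) [∀ i : {p // p ∈ P}, NeZero (i : ℕ)], (∀ p ∈ P, p.Prime) →
    (∀ p ∈ P, T ≤ p ∧ (p : ℝ) < 2 * T) → c * T / Real.log N ≤ P.card →
    ∀ (π : ∀ i : {p // p ∈ P}, ZMod i → ℝ), (∀ i r, 0 ≤ π i r) → (∀ i, ∑ r, π i r = 1) →
    (∀ i r, π i r ≤ K * T ^ (-h)) →
    ∑ a ∈ univ.filter (fun a : ∀ i : {p // p ∈ P}, ZMod i =>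
      ((un (fun (i : {p // p ∈ P}) (r : ZMod i) => cls N i r) a univ).card : ℝ) <
        (N : ℝ) ^ (1 - η) * T ^ (-((1 - h) / 2))), ∏ i, π i (a i) ≤ (N : ℝ) ^ (-(4 : ℝ)) := by
  filter_upwards [core c η δ (η / 8) η hc hη hδ (by positivity) (by linarith) hη.le,
    ev_log (256 * K / c) η hη, ev_log (7 / (η * c)) (1 / 2) (by norm_num), eventually_ge_atTop 3]
    with N h1 h2 h3 h4 T hT hNT hTN P _ hP hPT hPc π hπ0 hπ1 hρ
  have hN3 : (3 : ℝ) ≤ N := by exact_mod_cast h4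
  have hN0 : (0 : ℝ) < N := by linarith
  have hL : 0 < Real.log N := Real.log_pos (by linarith)
  have hT1 : 1 ≤ T := by nlinarith
  have hX1 : T ^ (-((1 - h) / 2)) ≤ 1 :=
    Real.rpow_le_one_of_one_le_of_nonpos hT1 (by linarith)
  have h := h1 T hT hNT hTN P hP hPT hPc π hπ0 hπ1 (K * T ^ (-h)) (by positivity) hρ
    ((N : ℝ) ^ (1 - η) * T ^ (-((1 - h) / 2))) (by positivity) (by
      have : 0 ≤ (N : ℝ) ^ (1 - η) := by positivity
      nlinarith) (by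
      have e1 : ((N : ℝ) ^ (1 - η) * T ^ (-((1 - h) / 2))) ^ 2 =
          (N : ℝ) ^ (2 - 2 * η) * T ^ (h - 1) := by
        rw [mul_pow, ← Real.rpow_natCast, ← Real.rpow_natCast, ← Real.rpow_mul hN0.le,
          ← Real.rpow_mul hT.le]
        congr 2 <;> push_cast <;> ring
      have e2 : T ^ (-h) * T ^ (h - 1) * T = 1 := by
        rw [← Real.rpow_add hT, ← Real.rpow_add_one hT.ne']
        have : -h + (h - 1) + 1 = 0 := by ring
        rw [this, Real.rpow_zero]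
      have e3 : 256 * (K * T ^ (-h)) * ((N : ℝ) ^ (1 - η) * T ^ (-((1 - h) / 2))) ^ 2 * T / c *
          Real.log N = (256 * K / c * Real.log N) * (N : ℝ) ^ (2 - 2 * η) *
            (T ^ (-h) * T ^ (h - 1) * T) := by
        rw [e1]; ring
      rw [e3, e2, mul_one]
      calc (256 * K / c * Real.log N) * (N : ℝ) ^ (2 - 2 * η) ≤
            (N : ℝ) ^ η * (N : ℝ) ^ (2 - 2 * η) := by gcongr
        _ = (N : ℝ) ^ (2 - η) := by
            rw [← Real.rpow_add hN0]; congr 1; ring)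
  refine h.trans ?_
  rw [← Real.rpow_natCast, ← Real.rpow_mul hN0.le]
  refine Real.rpow_le_rpow_of_exponent_le (by linarith) ?_
  have hT2 : (N : ℝ) ^ ((1 : ℝ) / 2) ≤ T := by
    rw [← Real.sqrt_eq_rpow]
    exact Real.sqrt_le_left hT.le |>.2 hNT
  have h5 : 7 / η ≤ P.card := by
    refine le_trans ?_ hPc
    rw [div_mul_eq_mul_div, div_le_iff₀ (by positivity)] at h3
    rw [div_le_div_iff₀ hη hL]
    nlinarith [mul_le_mul_of_nonneg_right hT2 (by positivity : (0 : ℝ) ≤ η * c)]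
  rw [div_le_iff₀ hη] at h5
  have h6 : (0 : ℝ) ≤ P.card := Nat.cast_nonneg _
  nlinarith [mul_nonneg h6 hη.le, mul_nonneg (mul_nonneg h6 hη.le) hη.le]

/-- **uniform residues**: the number of choices -/
theorem count_bound (c α ε δ : ℝ) (hc : 0 < c) (hα : 1 / 2 ≤ α) (hα1 : α < 1) (hε : 0 < ε)
    (hδ : 0 < δ) : ∀ᶠ N : ℕ in atTop,
    ∀ (P : Finset ℕ) [∀ i : {p // p ∈ P}, NeZero (i : ℕ)], (∀ p ∈ P, p.Prime) →
    (∀ p ∈ P, (N : ℝ) ^ α ≤ p ∧ (p : ℝ) < 2 * (N : ℝ) ^ α) →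
    c * (N : ℝ) ^ α / Real.log N ≤ P.card →
    ((univ.filter (fun a : ∀ i : {p // p ∈ P}, ZMod i =>
      ((un (fun (i : {p // p ∈ P}) (r : ZMod i) => cls N i r) a univ).card : ℝ) <
        (N : ℝ) ^ (1 - ε))).card : ℝ) ≤ (∏ p ∈ P, (p : ℝ)) ^ (1 - 2 * ε / α + δ) := by
  obtain ⟨δ₁, hδ₁e⟩ : ∃ δ₁, δ₁ = min (α * δ / 8) ε := ⟨_, rfl⟩
  have hδ₁ : 0 < δ₁ := by rw [hδ₁e]; exact lt_min (by positivity) hε
  have hδ₂ : δ₁ ≤ α * δ / 8 := by rw [hδ₁e]; exact min_le_left _ _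
  have hδ₃ : δ₁ ≤ ε := by rw [hδ₁e]; exact min_le_right _ _
  obtain ⟨t, ht⟩ : ∃ t, t = -(2 * ε / α) + δ := ⟨_, rfl⟩
  filter_upwards [core c ε (1 - α) (δ₁ / (2 + 2 * ε)) (2 * ε - δ₁) hc hε (by linarith)
      (by positivity) (by rw [div_le_iff₀ (by positivity)]; linarith) (by linarith),
    ev_log (256 / c) δ₁ hδ₁,
    ((tendsto_rpow_atTop (show 0 < α * δ / 2 by positivity)).comp
      tendsto_natCast_atTop_atTop).eventually_ge_atTop ((2 : ℝ) ^ |t|),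
    eventually_ge_atTop 3]
    with N h1 h2 h3 h4 P _ hP hPT hPc
  have hN3 : (3 : ℝ) ≤ N := by exact_mod_cast h4
  have hN0 : (0 : ℝ) < N := by linarith
  have hL : 0 < Real.log N := Real.log_pos (by linarith)
  simp only [Function.comp_apply] at h3
  have hα0 : 0 < α := by linarith
  obtain ⟨T, hTe⟩ : ∃ T, T = (N : ℝ) ^ α := ⟨_, rfl⟩
  rw [← hTe] at hPT hPc
  have hT : 0 < T := by rw [hTe]; positivity
  have hNT : (N : ℝ) ≤ T ^ 2 := by
    rw [hTe, ← Real.rpow_natCast, ← Real.rpow_mul hN0.le]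
    calc (N : ℝ) = (N : ℝ) ^ (1 : ℝ) := (Real.rpow_one _).symm
      _ ≤ _ := Real.rpow_le_rpow_of_exponent_le (by linarith) (by push_cast; linarith)
  have h := h1 T hT hNT (by rw [hTe]; simp) P hP hPT hPc (fun i _ => 1 / ((i : ℕ) : ℝ))
    (fun i r => by positivity) (fun i => by
      rw [sum_const, card_univ, ZMod.card, nsmul_eq_mul]
      have : ((i : ℕ) : ℝ) ≠ 0 := by
        have := (hP i i.2).pos
        positivity
      field_simp) T⁻¹ (by positivity) (fun i r => by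
      rw [one_div]
      exact inv_anti₀ hT (hPT i i.2).1) ((N : ℝ) ^ (1 - ε)) (by positivity) le_rfl (by
      have e1 : 256 * T⁻¹ * ((N : ℝ) ^ (1 - ε)) ^ 2 * T / c * Real.log N =
          (256 / c * Real.log N) * ((N : ℝ) ^ (1 - ε)) ^ 2 := by
        field_simp
      rw [e1]
      calc (256 / c * Real.log N) * ((N : ℝ) ^ (1 - ε)) ^ 2 ≤
            (N : ℝ) ^ δ₁ * ((N : ℝ) ^ (1 - ε)) ^ 2 := by gcongr
        _ = (N : ℝ) ^ (2 - (2 * ε - δ₁)) := by
            rw [← Real.rpow_natCast, ← Real.rpow_mul hN0.le, ← Real.rpow_add hN0]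
            congr 1; push_cast; ring)
  rw [sum_const, nsmul_eq_mul] at h
  -- compare with the product of the primes
  have hprod : ∏ i : {p // p ∈ P}, 1 / ((i : ℕ) : ℝ) = (∏ p ∈ P, (p : ℝ))⁻¹ := by
    rw [prod_coe_sort P (fun p => 1 / (p : ℝ)), ← prod_inv_distrib]
    simp only [one_div]
  have hpos : 0 < ∏ p ∈ P, (p : ℝ) := prod_pos fun p hp => by
    exact_mod_cast (hP p hp).pos
  rw [hprod, ← div_eq_mul_inv, div_le_iff₀ hpos] at h
  refine h.trans ?_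
  have e4 : (1 - 2 * ε / α + δ) = t + 1 := by rw [ht]; ring
  rw [e4, Real.rpow_add_one hpos.ne']
  refine mul_le_mul_of_nonneg_right ?_ hpos.le
  rw [← Real.finsetProd_rpow P (fun p => (p : ℝ)) (fun p _ => Nat.cast_nonneg p) t, ← prod_const]
  refine prod_le_prod (fun _ _ => by positivity) fun p hp => ?_
  have hp := hPT p hp
  have hp0 : (0 : ℝ) < p := by linarith
  have e5 : T ^ t * (2 : ℝ) ^ (-|t|) ≤ (p : ℝ) ^ t := by
    rcases le_total 0 t with h5 | h5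
    · calc T ^ t * (2 : ℝ) ^ (-|t|) ≤ T ^ t * 1 := by
            apply mul_le_mul_of_nonneg_left _ (by positivity)
            exact Real.rpow_le_one_of_one_le_of_nonpos (by norm_num) (by
              have := abs_nonneg t; linarith)
        _ = T ^ t := mul_one _
        _ ≤ _ := Real.rpow_le_rpow hT.le hp.1 h5
    · rw [abs_of_nonpos h5, neg_neg, ← Real.mul_rpow hT.le (by norm_num), mul_comm]
      exact Real.rpow_le_rpow_of_nonpos hp0 hp.2.le h5
  refine le_trans ?_ e5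
  have e6 : T ^ t = (N : ℝ) ^ (-(2 * ε) + α * δ) := by
    rw [hTe, ← Real.rpow_mul hN0.le]
    congr 1
    rw [ht]
    field_simp
  rw [e6, Real.rpow_neg (by norm_num : (0 : ℝ) ≤ 2), ← div_eq_mul_inv,
    le_div_iff₀ (by positivity)]
  calc (N : ℝ) ^ ((2 + (2 * ε - δ₁)) * (δ₁ / (2 + 2 * ε)) - (2 * ε - δ₁)) * (2 : ℝ) ^ |t|
      ≤ (N : ℝ) ^ (2 * δ₁ - 2 * ε) * (N : ℝ) ^ (α * δ / 2) := by
        apply mul_le_mul _ h3 (by positivity) (by positivity)
        refine Real.rpow_le_rpow_of_exponent_le (by linarith) ?_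
        have : (2 + (2 * ε - δ₁)) * (δ₁ / (2 + 2 * ε)) ≤ δ₁ := by
          rw [mul_div_assoc', div_le_iff₀ (by positivity)]
          nlinarith
        linarith
    _ = (N : ℝ) ^ (2 * δ₁ - 2 * ε + α * δ / 2) := by rw [← Real.rpow_add hN0]
    _ ≤ _ := Real.rpow_le_rpow_of_exponent_le (by linarith) (by
        have : 0 < α * δ := by positivity
        linarith)

end Pool.Agent.Q93.CV
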