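import Pool.Agent.Q93.CV.Asym
import Pool.Agent.Results.MP_bb5cc8_nt.SumsDifferences

/-! Random residues: almost sure lower bounds for the number of the covered integers. -/

set_option autoImplicit false

open Finset Filter MeasureTheory ProbabilityTheory

namespace Pool.Agent.Q93.CV

open Pool.Agent.Results.MP_bb5cc8_nt.SumsDifferences (window)

/-- the primes in `(x, 2 x]` -/
def PX (x : ℕ) : Finset ℕ := (Ioc x (x + x)).filter Nat.Prime

lemma prime_PX {x p : ℕ} (h : p ∈ PX x) : p.Prime := (mem_filter.1 h).2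

lemma card_PX : ∃ x₀ : ℕ, ∀ x : ℕ, x₀ ≤ x → ∀ N : ℕ, 2 ≤ x → x ≤ N →
    1 / 4 * ((x : ℝ) + 1) / Real.log N ≤ (PX x).card := by
  obtain ⟨x₀, h0⟩ := Pool.Agent.H386R2.HL.pnt_window (1 / 2) (by norm_num)
  refine ⟨x₀, fun x hx N hx2 hxN => ?_⟩
  have hw := h0 x hx x le_rfl
  have e1 : Nat.primeCounting (x + x) ≤ Nat.primeCounting x + (PX x).card := by
    change Nat.count Nat.Prime (x + x + 1) ≤ Nat.count Nat.Prime (x + 1) + _
    rw [Nat.count_eq_card_filter_range, Nat.count_eq_card_filter_range]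
    refine le_trans (card_le_card (t := (range (x + 1)).filter Nat.Prime ∪ PX x) ?_)
      (card_union_le _ _)
    intro p hp
    rw [mem_filter, mem_range] at hp
    unfold PX
    rw [mem_union, mem_filter, mem_range, mem_filter, mem_Ioc]
    by_cases h : p < x + 1
    · exact Or.inl ⟨h, hp.2⟩
    · exact Or.inr ⟨⟨by omega, by omega⟩, hp.2⟩
  have e2 : (Nat.primeCounting (x + x) : ℝ) ≤ Nat.primeCounting x + (PX x).card := by
    exact_mod_cast e1
  have hx2r : (2 : ℝ) ≤ x := by exact_mod_cast hx2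
  have hlx : 0 < Real.log x := Real.log_pos (by linarith)
  have hl : Real.log x ≤ Real.log N := Real.log_le_log (by linarith) (by exact_mod_cast hxN)
  have hlN : 0 < Real.log N := by linarith
  calc 1 / 4 * ((x : ℝ) + 1) / Real.log N ≤ (1 - 1 / 2) * (x / Real.log N) := by
        rw [mul_div_assoc', div_le_div_iff_of_pos_right hlN]
        linarith
    _ ≤ (1 - 1 / 2) * (x / Real.log x) := by
        apply mul_le_mul_of_nonneg_left _ (by norm_num)
        exact div_le_div_of_nonneg_left (by linarith) hlx hl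
    _ ≤ _ := by linarith

variable {Ω : Type*} [MeasurableSpace Ω] (μ : Measure Ω) [IsProbabilityMeasure μ]

lemma sum_prob {p : ℕ} [NeZero p] (f : Ω → ZMod p) (hf : Measurable f) :
    ∑ r : ZMod p, μ.real {ω | f ω = r} = 1 := by
  have h1 : (⋃ r ∈ (univ : Finset (ZMod p)), {ω | f ω = r}) = Set.univ := by
    ext ω; simp
  have h2 := measureReal_biUnion_finset (μ := μ) (s := (univ : Finset (ZMod p)))
    (f := fun r => {ω | f ω = r}) (by
      intro r _ s _ hrs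
      rw [Function.onFun, Set.disjoint_left]
      intro ω h3 h4
      exact hrs (h3.symm.trans h4)) (fun r _ => hf (measurableSet_singleton r))
  rw [h1, probReal_univ] at h2
  exact h2.symm

lemma prob_event (P : Finset ℕ) [∀ i : {p // p ∈ P}, NeZero (i : ℕ)] (hP : ∀ p ∈ P, p.Prime)
    (ξ : ∀ p : Nat.Primes, Ω → ZMod p) (hind : iIndepFun ξ μ)
    (B : Finset (∀ i : {p // p ∈ P}, ZMod i)) :
    μ.real {ω | (fun i : {p // p ∈ P} => ξ ⟨i, hP i i.2⟩ ω) ∈ B} ≤
      ∑ a ∈ B, ∏ i : {p // p ∈ P}, μ.real {ω | ξ ⟨i, hP i i.2⟩ ω = a i} := by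
  classical
  have e : {ω | (fun i : {p // p ∈ P} => ξ ⟨i, hP i i.2⟩ ω) ∈ B} ⊆
      ⋃ a ∈ B, {ω | (fun i : {p // p ∈ P} => ξ ⟨i, hP i i.2⟩ ω) = a} := by
    intro ω hω
    exact Set.mem_biUnion hω rfl
  refine (measureReal_mono e (measure_ne_top _ _)).trans
    ((measureReal_biUnion_finset_le _ _).trans ?_)
  refine sum_le_sum fun a _ => ?_
  have hinj : Function.Injective fun i : {p // p ∈ P} => (⟨i, hP i i.2⟩ : Nat.Primes) := by
    intro i j hij
    have := congrArg Subtype.val hij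
    exact Subtype.ext this
  have h1 := (hind.precomp hinj).measure_inter_preimage_eq_mul univ
    (sets := fun i => {a i}) (fun i _ => measurableSet_singleton _)
  have h2 : {ω | (fun i : {p // p ∈ P} => ξ ⟨i, hP i i.2⟩ ω) = a} =
      ⋂ i ∈ (univ : Finset {p // p ∈ P}), (fun ω => ξ ⟨i, hP i i.2⟩ ω) ⁻¹' {a i} := by
    ext ω
    simp only [Set.mem_ofPred_eq, funext_iff, mem_univ, Set.iInter_true, Set.mem_iInter,
      Set.mem_preimage, Set.mem_singleton_iff]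
  rw [h2, measureReal_def]
  have h3 : μ (⋂ i ∈ (univ : Finset {p // p ∈ P}), (fun ω => ξ ⟨i, hP i i.2⟩ ω) ⁻¹' {a i}) =
      ∏ i : {p // p ∈ P}, μ ((fun ω => ξ ⟨i, hP i i.2⟩ ω) ⁻¹' {a i}) := h1
  rw [h3, ENNReal.toReal_prod]
  rfl

/-- the integers covered by the residues modulo the primes in `(x, 2 x]` -/
noncomputable def G (N x : ℕ) (a : ∀ p : Nat.Primes, ZMod p) : Finset ℕ := by
  classical
  exact (Icc 1 N).filter fun n : ℕ =>
    ∃ p : Nat.Primes, x < (p : ℕ) ∧ (p : ℕ) ≤ x + x ∧ (n : ZMod p) = a p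

lemma G_eq (N x : ℕ) (a : ∀ p : Nat.Primes, ZMod p) :
    G N x a = un (fun (i : {p // p ∈ PX x}) (r : ZMod i) => cls N i r)
      (fun i => a ⟨i, prime_PX i.2⟩) univ := by
  classical
  ext n
  unfold G un cls
  simp only [mem_filter, mem_biUnion, mem_univ, true_and]
  constructor
  · rintro ⟨hn, p, h1, h2, h3⟩
    have hp : (p : ℕ) ∈ PX x := by
      unfold PX
      rw [mem_filter, mem_Ioc]
      exact ⟨⟨h1, h2⟩, p.2⟩
    exact ⟨⟨p, hp⟩, hn, h3⟩
  · rintro ⟨⟨p, hp⟩, hn, h3⟩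
    have hp' := hp
    unfold PX at hp'
    rw [mem_filter, mem_Ioc] at hp'
    exact ⟨hn, ⟨p, hp'.2⟩, hp'.1.1, hp'.1.2, h3⟩

/-- **almost sure lower bounds** for all windows -/
theorem as_bound (K h : ℝ) (hK : 0 < K) (h0 : 0 ≤ h) (h1 : h ≤ 1)
    (ξ : ∀ (N : ℕ) (p : Nat.Primes), Ω → ZMod p) (hm : ∀ N p, Measurable (ξ N p))
    (hind : ∀ N, iIndepFun (ξ N) μ)
    (hKh : ∀ (N : ℕ) (p : Nat.Primes) (r : ZMod p), μ.real {ω | ξ N p ω = r} ≤
      K * ((p : ℕ) : ℝ) ^ (-h)) (η δ : ℝ) (hη : 0 < η) (hη1 : η ≤ 1) (hδ : 0 < δ) :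
    ∀ᵐ ω ∂μ, ∀ᶠ N : ℕ in atTop, ∀ x : ℕ, (N : ℝ) ≤ ((x : ℝ) + 1) ^ 2 →
      (x : ℝ) + 1 ≤ (N : ℝ) ^ (1 - δ) →
      (N : ℝ) ^ (1 - η) * ((x : ℝ) + 1) ^ (-((1 - h) / 2)) ≤
        ((G N x fun p => ξ N p ω).card : ℝ) := by
  classical
  obtain ⟨x₀, hx₀⟩ := card_PX
  obtain ⟨N₁, hN₁⟩ := eventually_atTop.1 (prob_bound K h (1 / 4) η δ hK h1 (by norm_num) hη hη1 hδ)
  obtain ⟨N₂, hN₂⟩ : ∃ N₂, N₂ = N₁ + (x₀ + 1) ^ 2 + 9 := ⟨_, rfl⟩
  set bad : ℕ → ℕ → Set Ω := fun N x => {ω | (N : ℝ) ≤ ((x : ℝ) + 1) ^ 2 ∧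
      (x : ℝ) + 1 ≤ (N : ℝ) ^ (1 - δ) ∧ ((G N x fun p => ξ N p ω).card : ℝ) <
        (N : ℝ) ^ (1 - η) * ((x : ℝ) + 1) ^ (-((1 - h) / 2))} with hbad
  have hprob : ∀ N, N₂ ≤ N → ∀ x : ℕ, μ.real (bad N x) ≤ (N : ℝ) ^ (-(4 : ℝ)) := by
    intro N hN x
    by_cases hc : (N : ℝ) ≤ ((x : ℝ) + 1) ^ 2 ∧ (x : ℝ) + 1 ≤ (N : ℝ) ^ (1 - δ)
    · have hNx : N ≤ (x + 1) ^ 2 := by exact_mod_cast hc.1
      have hx1 : x₀ + 1 ≤ x + 1 := by
        have : (x₀ + 1) ^ 2 ≤ (x + 1) ^ 2 := by omega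
        exact (Nat.pow_le_pow_iff_left (by norm_num)).1 this
      have hx2 : 3 ≤ x + 1 := by
        have : 3 ^ 2 ≤ (x + 1) ^ 2 := by omega
        exact (Nat.pow_le_pow_iff_left (by norm_num)).1 this
      have hN1 : (1 : ℝ) ≤ N := by exact_mod_cast (by omega : 1 ≤ N)
      have hxN : x ≤ N := by
        have : (x : ℝ) + 1 ≤ N := hc.2.trans (by
          calc (N : ℝ) ^ (1 - δ) ≤ (N : ℝ) ^ (1 : ℝ) :=
                Real.rpow_le_rpow_of_exponent_le hN1 (by linarith)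
            _ = N := Real.rpow_one _)
        exact_mod_cast (by linarith : (x : ℝ) ≤ N)
      haveI : ∀ i : {p // p ∈ PX x}, NeZero (i : ℕ) := fun i => ⟨(prime_PX i.2).ne_zero⟩
      have hT : (0 : ℝ) < (x : ℝ) + 1 := by positivity
      have hPT : ∀ p ∈ PX x, (x : ℝ) + 1 ≤ p ∧ (p : ℝ) < 2 * ((x : ℝ) + 1) := by
        intro p hp
        unfold PX at hp
        rw [mem_filter, mem_Ioc] at hp
        constructor
        · exact_mod_cast hp.1.1
        · have : (p : ℝ) ≤ x + x := by exact_mod_cast hp.1.2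
          linarith
      have hb := hN₁ N (by omega) ((x : ℝ) + 1) hT hc.1 hc.2 (PX x) (fun p hp => prime_PX hp)
        hPT (hx₀ x (by omega) N (by omega) hxN)
        (fun i r => μ.real {ω | ξ N ⟨i, prime_PX i.2⟩ ω = r}) (fun _ _ => measureReal_nonneg)
        (fun i => sum_prob μ _ (hm N _)) (fun i r => by
          refine (hKh N ⟨i, prime_PX i.2⟩ r).trans ?_
          apply mul_le_mul_of_nonneg_left _ hK.le
          exact Real.rpow_le_rpow_of_nonpos hT (hPT i i.2).1 (by linarith))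
      refine le_trans ?_ hb
      refine le_trans (measureReal_mono ?_) (prob_event μ (PX x) (fun p hp => prime_PX hp)
        (ξ N) (hind N) _)
      intro ω hω
      simp only [hbad, Set.mem_ofPred_eq] at hω
      rw [Set.mem_ofPred_eq, mem_filter]
      refine ⟨mem_univ _, ?_⟩
      have := hω.2.2
      rw [G_eq] at this
      exact this
    · have : bad N x = ∅ := by
        ext ω
        simp only [hbad, Set.mem_ofPred_eq, Set.mem_empty_iff_false, iff_false]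
        rintro ⟨h1, h2, -⟩
        exact hc ⟨h1, h2⟩
      rw [this, measureReal_empty]
      positivity
  set Bad : ℕ → Set Ω := fun N => ⋃ x ∈ range N, bad N x with hBad
  have hprob2 : ∀ N, N₂ ≤ N → μ.real (Bad N) ≤ 1 / (N : ℝ) ^ 2 := by
    intro N hN
    have hN0 : (0 : ℝ) < N := by exact_mod_cast (by omega : 0 < N)
    refine (measureReal_biUnion_finset_le _ _).trans ?_
    calc ∑ x ∈ range N, μ.real (bad N x) ≤ ∑ _x ∈ range N, (N : ℝ) ^ (-(4 : ℝ)) :=
          sum_le_sum fun x _ => hprob N hN x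
      _ = (N : ℝ) * (N : ℝ) ^ (-(4 : ℝ)) := by rw [sum_const, card_range, nsmul_eq_mul]
      _ = (N : ℝ) ^ (-(3 : ℝ)) := by
          rw [mul_comm, ← Real.rpow_add_one hN0.ne']; norm_num
      _ ≤ (N : ℝ) ^ (-(2 : ℝ)) := Real.rpow_le_rpow_of_exponent_le
          (by exact_mod_cast (by omega : 1 ≤ N)) (by norm_num)
      _ = _ := by
          rw [Real.rpow_neg hN0.le, one_div]
          norm_cast
  have hsum : ∑' i, μ (Bad (i + N₂)) ≠ ⊤ := by
    have h1 : Summable fun i : ℕ => (1 / ((i + N₂ : ℕ) : ℝ) ^ 2) :=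
      (summable_nat_add_iff N₂).2 (Real.summable_one_div_nat_pow.2 (by norm_num))
    refine ne_top_of_le_ne_top h1.tsum_ofReal_ne_top (ENNReal.tsum_le_tsum fun i => ?_)
    rw [← ofReal_measureReal (measure_ne_top _ _)]
    exact ENNReal.ofReal_le_ofReal (hprob2 (i + N₂) (by omega))
  filter_upwards [ae_eventually_notMem hsum] with ω hω
  obtain ⟨i0, hi0⟩ := eventually_atTop.1 hω
  refine eventually_atTop.2 ⟨i0 + N₂, fun N hN x hx1 hx2 => ?_⟩
  have h2 := hi0 (N - N₂) (by omega)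
  rw [Nat.sub_add_cancel (by omega)] at h2
  by_contra hcon
  rw [not_le] at hcon
  apply h2
  rw [hBad]
  have hN1 : (1 : ℝ) ≤ N := by exact_mod_cast (by omega : 1 ≤ N)
  have hxN : x < N := by
    have : (x : ℝ) + 1 ≤ N := hx2.trans (by
      calc (N : ℝ) ^ (1 - δ) ≤ (N : ℝ) ^ (1 : ℝ) :=
            Real.rpow_le_rpow_of_exponent_le hN1 (by linarith)
        _ = N := Real.rpow_one _)
    exact_mod_cast (by linarith : (x : ℝ) < N)
  exact Set.mem_biUnion (mem_range.2 hxN) ⟨hx1, hx2, hcon⟩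

end Pool.Agent.Q93.CV
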